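import Pool.Agent.Y588.PC.Fwd2

set_option autoImplicit false

namespace Pool.Agent.Y588.PC

open Pool.Agent.Helper227 Pool.Agent.H685R3 Pool.Agent.Y588.PD

/-- The first bits of `F z` depend only on as many first bits of `z`. -/
def Lip (F : (ℕ → Bool) → ℕ → Bool) : Prop :=
  ∀ z z' : ℕ → Bool, ∀ m, (∀ i < m, z i = z' i) → pre (F z) m = pre (F z') m

/-- The string confirmed by the candidate `i` about the data encoded by `F z`, for `z` with the
initial segment `p`. -/
noncomputable def dq (d : ℕ → List Bool → List Bool) (F : (ℕ → Bool) → ℕ → Bool) (i : ℕ)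
    (p : List Bool) : List Bool :=
  d i (pre (F fun n => p.getD n false) p.length)

variable {Q : (ℕ → Bool) → (ℕ → Bool) → Prop} {d : ℕ → List Bool → List Bool}
  {F : (ℕ → Bool) → ℕ → Bool}

theorem dq_of_ini (hF : Lip F) {p : List Bool} {z : ℕ → Bool} (h : Ini p z) (i : ℕ) :
    dq d F i p = d i (pre (F z) p.length) := by
  rw [dq, hF _ z _ fun j hj => (h j hj).symm]

theorem dq_pre (hF : Lip F) (z : ℕ → Bool) (i t : ℕ) :
    dq d F i (pre z t) = d i (pre (F z) t) := by
  rw [dq_of_ini hF (ini_pre z t), length_pre]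

theorem dq_mono (hD : Dcd Q d) (hF : Lip F) {p p' : List Bool} (h : p <+: p')
    (i : ℕ) : dq d F i p <+: dq d F i p' := by
  have h1 : Ini p fun n => p'.getD n false := fun j hj => getD_of_prefix h hj
  rw [dq_of_ini hF h1, dq]
  exact hD.mono (pre_prefix _ h.length_le)

end Pool.Agent.Y588.PC
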