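import Pool.Agent.Y588.PD.Kill
import Pool.Agent.Y588.PC.Cond

set_option autoImplicit false

namespace Pool.Agent.Y588.PC

open Encodable
open Pool.Agent.Helper227 Pool.Agent.H685R3 Pool.Agent.Y588.PD

variable {Q : (ℕ → Bool) → (ℕ → Bool) → Prop} {d : ℕ → List Bool → List Bool}
  {Ψ : (ℕ → Bool) → ℕ → Bool} {β : ℕ}

/-- The condition excludes the value `v` of the move `k` for the indices `i`, `c`, `N`. -/
def Kill (d : ℕ → List Bool → List Bool)
    (Ψ : (ℕ → Bool) → ℕ → Bool) (q : Cond) (k : ℕ) (v : Bool) (i c N : ℕ) : Prop :=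
  Bad k v c N (dq d Ψ i q.1) ∨
    ∃ M, ∀ p', Fz q.2 q.1 p' → lp (dq d Ψ i p') (col k c v) ≤ M

theorem Kill.mono (hD : Dcd Q d) (hΨ : Lip Ψ) {q q' : Cond} (h : Le q' q)
    {k : ℕ} {v : Bool} {i c N : ℕ} (hk : Kill d Ψ q k v i c N) :
    Kill d Ψ q' k v i c N := by
  rcases hk with hk | ⟨M, hM⟩
  · exact Or.inl (hk.mono (dq_mono hD hΨ h.2.1 i))
  · exact Or.inr ⟨M, fun p' hp' => hM p' (h.2.trans (hp'.anti h.1))⟩

/-- The indices `i`, `c`, `N` witness the value `v` of the move `k`. -/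
def QQ (d : ℕ → List Bool → List Bool)
    (Ψ : (ℕ → Bool) → ℕ → Bool) (z : ℕ → Bool) (k : ℕ) (v : Bool) (i c N : ℕ) : Prop :=
  (∀ M, ∃ t, M ≤ lp (d i (pre (Ψ z) t)) (col k c v)) ∧
    ∀ t, ¬ Bad k v c N (d i (pre (Ψ z) t))

theorem Kill.not_QQ (hD : Dcd Q d) (hΨ : Lip Ψ) {q : Cond} {z : ℕ → Bool}
    {k : ℕ} {v : Bool} {i c N : ℕ} (hk : Kill d Ψ q k v i c N) (hz : ZE z q) :
    ¬ QQ d Ψ z k v i c N := by
  rintro ⟨h1, h2⟩
  rcases hk with hk | ⟨M, hM⟩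
  · rw [dq_of_ini hΨ hz.1] at hk
    exact h2 _ hk
  · obtain ⟨t, ht⟩ := h1 (M + 1)
    have h3 := hM _ (hz.fz (le_max_right t q.1.length))
    rw [dq_pre hΨ] at h3
    have h4 := lp_mono (hD.mono (i := i)
      (pre_prefix (Ψ z) (le_max_left t q.1.length))) (col k c v)
    omega

theorem QQ.out (hD : Dcd Q d) {z : ℕ → Bool} {k : ℕ} {v : Bool} {i c N : ℕ}
    (h : QQ d Ψ z k v i c N) : ∃ u, Q (Ψ z) u ∧ Out u k v := by
  have h1 : ∀ m, ∃ t, m ≤ (d i (pre (Ψ z) t)).length := by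
    intro m
    obtain ⟨t, ht⟩ := h.1 m
    exact ⟨t, ht.trans (lp_le_length _ _)⟩
  obtain ⟨u, h2, h3⟩ := hD.of_cand h1
  have h4 : ∀ q, (q = col k c (!v) ∨ ∃ c' < c, ∃ v', q = col k c' v') → ¬ Often u q := by
    intro q hq ho
    obtain ⟨s', h5, h6⟩ := ho N
    obtain ⟨t, ht⟩ := h1 (Nat.pair q s' + 1)
    refine h.2 t ⟨Nat.pair q s', h5.le.trans (Nat.right_le_pair _ _), by omega, ?_, ?_⟩
    · rw [← h2 t _ (by omega)]
      exact h6
    · rw [Nat.unpair_pair]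
      exact hq
  exact ⟨u, h3, c, often_of_lp h2 h.1, h4 _ (Or.inl rfl),
    fun c' hc' v' => h4 _ (Or.inr ⟨c', hc', v', rfl⟩)⟩

theorem exists_QQ (hD : Dcd Q d) {z u : ℕ → Bool} {k : ℕ} {v : Bool}
    (hu : Q (Ψ z) u) (ho : Out u k v) :
    ∃ i c N, QQ d Ψ z k v i c N := by
  classical
  obtain ⟨i, h1, h2⟩ := hD.cand hu
  obtain ⟨c, h3, h4, h5⟩ := ho
  let S : Finset ℕ := insert (col k c (!v))
    ((Finset.range c ×ˢ (Finset.univ : Finset Bool)).image fun p => col k p.1 p.2)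
  have hS : ∀ q, (q = col k c (!v) ∨ ∃ c' < c, ∃ v', q = col k c' v') → q ∈ S := by
    rintro q (rfl | ⟨c', h6, v', rfl⟩)
    · exact Finset.mem_insert_self _ _
    · refine Finset.mem_insert_of_mem (Finset.mem_image.2 ⟨(c', v'), ?_, rfl⟩)
      simp [h6]
  have h6 : ∀ q, ∃ M, q ∈ S → ∀ s' ≥ M, u (Nat.pair q s') ≠ true := by
    intro q
    by_cases hq : q ∈ S
    · have h7 : ¬ Often u q := by
        rcases Finset.mem_insert.1 hq with rfl | h7
        · exact h4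
        · obtain ⟨⟨c', v'⟩, h8, rfl⟩ := Finset.mem_image.1 h7
          simp only [Finset.mem_product, Finset.mem_range, Finset.mem_univ, and_true] at h8
          exact h5 c' h8 v'
      unfold Often at h7
      push Not at h7
      obtain ⟨M, hM⟩ := h7
      exact ⟨M, fun _ => hM⟩
    · exact ⟨0, fun h => absurd h hq⟩
  choose M hM using h6
  refine ⟨i, c, S.sup fun q => Nat.pair q (M q), lp_of_often h2 h1 h3, ?_⟩
  rintro t ⟨n, h7, h8, h9, h10⟩
  have h11 := hS _ h10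
  have h12 : Nat.pair n.unpair.1 (M n.unpair.1) ≤ n :=
    (Finset.le_sup (f := fun q => Nat.pair q (M q)) h11).trans h7
  have h13 := hM _ h11 _ (le_unpair_of_le h12 rfl)
  rw [Nat.pair_unpair, h2 t n h8] at h13
  exact h13 h9

variable {B : Set (ℕ → Bool)}

theorem exists_value (hgood : ∀ z, ∃ u, Q (Ψ z) u ∧ GoodB β B u z)
    {z : ℕ → Bool} {k : ℕ} (hk : k % 2 = β) {y : ℕ → Bool}
    (hz : ∀ j < k, j % 2 ≠ β → Out z j (y j)) :
    ∃ v u, Q (Ψ z) u ∧ Out u k v := by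
  obtain ⟨u, hu, hg⟩ := hgood z
  rcases hg with ⟨y', _, h1⟩ | ⟨k', h1, h2, h3⟩
  · have h4 := h1 k
    rw [sel, if_pos hk] at h4
    exact ⟨_, u, hu, h4⟩
  · rw [sel, if_neg h1] at h2
    rcases lt_trichotomy k' k with h4 | h4 | h4
    · exact absurd (hz k' h4 h1) (h2 _)
    · rw [h4] at h1
      exact absurd hk h1
    · obtain ⟨v, hv⟩ := h3 k h4
      rw [sel, if_pos hk] at hv
      exact ⟨v, u, hu, hv⟩

/-- Below a condition which cannot exclude a witness of `v`, all witnesses of the other value can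
be excluded. -/
theorem kill_of_rich (hD : Dcd Q d) (hΨ : Lip Ψ)
    {F : Finset ℕ} {p : List Bool} {k : ℕ} {v : Bool} {i c N : ℕ}
    (hr : ∀ p', Fz F p p' → ¬ Kill d Ψ (p', F) k v i c N) (i' c' N' : ℕ) :
    ∃ p', Fz F p p' ∧ Kill d Ψ (p', F) k (!v) i' c' N' := by
  by_contra hcon
  have hr' : ∀ p', Fz F p p' → ¬ Kill d Ψ (p', F) k (!v) i' c' N' :=
    fun p' h1 h2 => hcon ⟨p', h1, h2⟩
  obtain ⟨z, hz, hgen⟩ := exists_generic (C := fun q => q.2 = F ∧ Fz F p q.1)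
    (fun n q => n + 1 ≤ q.1.length ∧ n ≤ lp (dq d Ψ i q.1) (col k c v) ∧
      n ≤ lp (dq d Ψ i' q.1) (col k c' (!v))) (fun n q hq => by
        obtain ⟨q1, q2⟩ := q
        obtain ⟨rfl, hq2⟩ := hq
        have h1 := hr q1 hq2
        unfold Kill at h1
        push Not at h1
        obtain ⟨p1, h2, h3⟩ := h1.2 n
        have h4 := hr' p1 (hq2.trans h2)
        unfold Kill at h4
        push Not at h4
        obtain ⟨p2, h5, h6⟩ := h4.2 n
        obtain ⟨p3, h7, h8⟩ := exists_longer q2 p2 (n + 1)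
        refine ⟨(p3, q2), (h2.trans (h5.trans h7)).le, ⟨rfl, hq2.trans (h2.trans (h5.trans h7))⟩,
          h8, ?_, ?_⟩
        · have := lp_mono (dq_mono hD hΨ
            (show p1 <+: p3 from (h5.trans h7).1) i) (col k c v)
          simp only
          omega
        · have := lp_mono (dq_mono hD hΨ
            (show p2 <+: p3 from h7.1) i') (col k c' (!v))
          simp only
          omega)
    (fun n q hq => hq.1) (q0 := (p, F)) ⟨rfl, Fz.refl _ _⟩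
  have hQ : ∀ (w : Bool) (i c N : ℕ), (∀ p', Fz F p p' → ¬ Kill d Ψ (p', F) k w i c N) →
      (∀ n, ∃ q : Cond, (q.2 = F ∧ Fz F p q.1) ∧ (n + 1 ≤ q.1.length ∧
        n ≤ lp (dq d Ψ i q.1) (col k c w)) ∧ ZE z q) → QQ d Ψ z k w i c N := by
    intro w i c N h1 h2
    refine ⟨fun M => ?_, fun t ht => ?_⟩
    · obtain ⟨q, _, ⟨_, h3⟩, h4⟩ := h2 M
      rw [dq_of_ini hΨ h4.1] at h3
      exact ⟨_, h3⟩
    · obtain ⟨q, ⟨h3, h4⟩, ⟨h5, _⟩, h6⟩ := h2 t
      refine h1 q.1 h4 (Or.inl ?_)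
      simp only
      rw [dq_of_ini hΨ h6.1]
      exact ht.mono (hD.mono (pre_prefix _ (by omega)))
  obtain ⟨u, h1, h2⟩ := (hQ v i c N hr fun n => by
    obtain ⟨q, h1, h2, h3⟩ := hgen n
    exact ⟨q, h1, ⟨h2.1, h2.2.1⟩, h3⟩).out hD
  obtain ⟨u', h1', h2'⟩ := (hQ (!v) i' c' N' hr' fun n => by
    obtain ⟨q, h1, h2, h3⟩ := hgen n
    exact ⟨q, h1, ⟨h2.1, h2.2.2⟩, h3⟩).out hD
  have h3 := hD.unique h1 h1'
  subst h3
  have h4 := h2.unique h2'
  revert h4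
  cases v <;> simp

/-- Below the condition all witnesses of the value `v` can be excluded, whatever else is frozen. -/
def BlockH (d : ℕ → List Bool → List Bool)
    (Ψ : (ℕ → Bool) → ℕ → Bool) (β : ℕ) (h : List Bool) (hc : ℕ → ℕ) (q : Cond) (k : ℕ)
    (v : Bool) : Prop :=
  ∀ q', Le q' q → Avoid β h hc q'.2 → ∀ i c N, ∃ p'', Fz q'.2 q'.1 p'' ∧
    Kill d Ψ (p'', q'.2) k v i c N

theorem exists_block (hD : Dcd Q d) (hΨ : Lip Ψ)
    (hgood : ∀ z, ∃ u, Q (Ψ z) u ∧ GoodB β B u z)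
    {h : List Bool} {hc : ℕ → ℕ} {q : Cond} (hF : Froz β h hc q.2) (hA : Avoid β h hc q.2)
    (hk : h.length % 2 = β) :
    ∃ v q', Le q' q ∧ Avoid β h hc q'.2 ∧ BlockH d Ψ β h hc q' h.length (!v) := by
  by_contra hcon
  have star : ∀ (w : Bool) (q' : Cond), Le q' q → Avoid β h hc q'.2 → ∀ i c N, ∃ q'', Le q'' q' ∧
      Avoid β h hc q''.2 ∧ Kill d Ψ q'' h.length w i c N := by
    intro w q' h1 h2 i c N
    have h3 : ¬ BlockH d Ψ β h hc q' h.length (!w) := fun h3 => hcon ⟨w, q', h1, h2, h3⟩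
    unfold BlockH at h3
    push Not at h3
    obtain ⟨q'', h4, h5, i', c', N', h6⟩ := h3
    obtain ⟨p, h7, h8⟩ := kill_of_rich hD hΨ h6 i c N
    rw [Bool.not_not] at h8
    exact ⟨(p, q''.2), h7.le.trans h4, h5, h8⟩
  obtain ⟨z, hz, hgen⟩ := exists_generic (C := fun q' => Le q' q ∧ Avoid β h hc q'.2)
    (fun n q' => n + 1 ≤ q'.1.length ∧ Vot β h hc n q'.1 ∧
      ∀ w, Kill d Ψ q' h.length w n.unpair.1 n.unpair.2.unpair.1 n.unpair.2.unpair.2)
    (fun n q' hq' => by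
      obtain ⟨q1, h1, h2, h3⟩ := star false q' hq'.1 hq'.2 n.unpair.1 n.unpair.2.unpair.1
        n.unpair.2.unpair.2
      obtain ⟨q2, h4, h5, h6⟩ := star true q1 (h1.trans hq'.1) h2 n.unpair.1
        n.unpair.2.unpair.1 n.unpair.2.unpair.2
      obtain ⟨p3, h7, h8⟩ := exists_vot h5 n q2.1
      obtain ⟨p4, h9, h10⟩ := exists_longer q2.2 p3 (n + 1)
      have h11 : Le (p4, q2.2) q2 := (h7.trans h9).le
      refine ⟨(p4, q2.2), h11.trans (h4.trans h1), ⟨h11.trans (h4.trans (h1.trans hq'.1)), h5⟩,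
        h10, h8.mono h9.1, fun w => ?_⟩
      cases w
      · exact h3.mono hD hΨ (h11.trans h4)
      · exact h6.mono hD hΨ h11)
    (fun n q hq => hq.1) (q0 := q) ⟨Le.refl q, hA⟩
  have hout : ∀ j < h.length, j % 2 ≠ β → Out z j (h.getD j false) := by
    intro j hj hjβ
    refine out_opp hz hF hj hjβ (often_of_vot (fun N => ?_) hj hjβ)
    obtain ⟨q', _, h1, h2⟩ := hgen N
    exact ⟨q'.1, h1.2.1, h2.1⟩
  obtain ⟨v, u, h1, h2⟩ := exists_value hgood hk (y := fun j => h.getD j false) hout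
  obtain ⟨i, c, N, h3⟩ := exists_QQ hD h1 h2
  obtain ⟨q', _, h4, h5⟩ := hgen (Nat.pair i (Nat.pair c N))
  have h6 := h4.2.2 v
  simp only [Nat.unpair_pair] at h6
  exact h6.not_QQ hD hΨ h5 h3

end Pool.Agent.Y588.PC
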