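import Mathlib
import Pool.Agent.Helper227.Defs
import Pool.Agent.Y588.PD.Defs

set_option autoImplicit false

namespace Pool.Agent.Y588.PC

open Pool.Agent.Helper227 Pool.Agent.H685R3 Pool.Agent.Y588.PD

/-- `R` is an equivalence relation, and there are countably many Borel functions `g n` such that
for comeagerly many `x` the equivalence class of `x` is the set of all `g n x`. -/
def GenericallyCountable (R : (ℕ → Bool) → (ℕ → Bool) → Prop) : Prop :=
  Equivalence R ∧ ∃ g : ℕ → (ℕ → Bool) → ℕ → Bool, (∀ n, Measurable (g n)) ∧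
    ∀ᶠ x in residual (ℕ → Bool), ∀ y, R x y ↔ ∃ n, g n x = y

/-- `B` is closed under the equivalence relation `R`. -/
def InvariantFor (R : (ℕ → Bool) → (ℕ → Bool) → Prop) (B : Set (ℕ → Bool)) : Prop :=
  ∀ x y, R x y → x ∈ B → y ∈ B

/-- The sequences `y` which can be replaced by some `κ u` as the sequence of the moves of
player I without changing the class of the play. -/
def Replaceable (R : (ℕ → Bool) → (ℕ → Bool) → Prop) (κ : (ℕ → Bool) → ℕ → Bool) :
    Set (ℕ → Bool) :=
  {y | ∃ u, ∀ b, R (join y b) (join (κ u) b)}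

/-- The coded form of `A`: whenever the play `x` is equivalent to the play in which player I
plays `κ₀ u` and player II plays `κ₁ z`, the data `u`, `z` are good for player I. -/
def CodedFor (R : (ℕ → Bool) → (ℕ → Bool) → Prop) (κ₀ κ₁ : (ℕ → Bool) → ℕ → Bool)
    (A : Set (ℕ → Bool)) : Set (ℕ → Bool) :=
  {x | ∀ u z, R x (join (κ₀ u) (κ₁ z)) → Good A u z}

/-- The plays in `B` in which the sequence of the moves of player I lies in `C`. -/
def Restrict (C B : Set (ℕ → Bool)) : Set (ℕ → Bool) := {x | part 0 x ∈ C ∧ x ∈ B}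

end Pool.Agent.Y588.PC
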