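import Pool.Agent.Y588.PD.Out
import Pool.Agent.Y588.PD.Cond
import Pool.Agent.Y588.PC.Defs

set_option autoImplicit false

namespace Pool.Agent.Y588.PC

open Pool.Agent.Helper227 Pool.Agent.H685R3 Pool.Agent.Y588.PD

/-- The relation `Q b z`, that is `b` encodes `z`, with countably many candidates `d i` for the
decoding. -/
structure Dcd (Q : (ℕ → Bool) → (ℕ → Bool) → Prop) (d : ℕ → List Bool → List Bool) : Prop where
  mono : ∀ {i : ℕ} {σ σ' : List Bool}, σ <+: σ' → d i σ <+: d i σ'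
  cand : ∀ {b z : ℕ → Bool}, Q b z → ∃ i, (∀ m, ∃ t, m ≤ (d i (pre b t)).length) ∧
    ∀ t, Ini (d i (pre b t)) z
  of_cand : ∀ {b : ℕ → Bool} {i : ℕ}, (∀ m, ∃ t, m ≤ (d i (pre b t)).length) →
    ∃ z, (∀ t, Ini (d i (pre b t)) z) ∧ Q b z
  unique : ∀ {b z z' : ℕ → Bool}, Q b z → Q b z' → z = z'

end Pool.Agent.Y588.PC
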