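import Pool.Agent.Y588.PC.Map

set_option autoImplicit false

namespace Pool.Agent.Y588.PC

open Pool.Agent.Helper227 Pool.Agent.H685R3 Pool.Agent.Y588.PD

section

variable (C : ℕ → List Bool → List Bool → Prop)

/-- The length of the longest confirmed string. -/
noncomputable def cdl (i : ℕ) (σ : List Bool) : ℕ :=
  open Classical in Nat.findGreatest (fun m => ∃ s, s.length = m ∧ C i σ s) σ.length

open Classical in
/-- The longest confirmed string. -/
noncomputable def cdec (i : ℕ) (σ : List Bool) : List Bool :=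
  if h : ∃ s, s.length = cdl C i σ ∧ C i σ s then h.choose else []

end

/-- A notion of confirmation. -/
structure CC (C : ℕ → List Bool → List Bool → Prop) : Prop where
  len : ∀ {i σ s}, C i σ s → s.length ≤ σ.length
  mono : ∀ {i σ σ' s}, C i σ s → σ <+: σ' → C i σ' s
  comp : ∀ {i σ s s'}, C i σ s → C i σ s' → s <+: s' ∨ s' <+: s

variable {C : ℕ → List Bool → List Bool → Prop}

theorem CC.cdec_of_conf (hC : CC C) {i : ℕ} {σ s : List Bool} (h : C i σ s) :
    C i σ (cdec C i σ) ∧ s.length ≤ (cdec C i σ).length := by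
  classical
  have h0 : s.length ≤ cdl C i σ :=
    Nat.le_findGreatest (P := fun m => ∃ s' : List Bool, s'.length = m ∧ C i σ s') (hC.len h)
      ⟨s, rfl, h⟩
  have h1 : ∃ s, s.length = cdl C i σ ∧ C i σ s :=
    Nat.findGreatest_spec (P := fun m => ∃ s' : List Bool, s'.length = m ∧ C i σ s') (hC.len h)
      ⟨s, rfl, h⟩
  have h2 : cdec C i σ = h1.choose := by rw [cdec, dif_pos h1]
  rw [h2, h1.choose_spec.1]
  exact ⟨h1.choose_spec.2, h0⟩

theorem CC.conf_cdec (hC : CC C) {i : ℕ} {σ : List Bool} (h : 0 < (cdec C i σ).length) :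
    C i σ (cdec C i σ) := by
  classical
  by_cases h1 : ∃ s, s.length = cdl C i σ ∧ C i σ s
  · obtain ⟨s, _, hs⟩ := h1
    exact (hC.cdec_of_conf hs).1
  · rw [cdec, dif_neg h1] at h
    simp at h

theorem CC.cdec_mono (hC : CC C) {i : ℕ} {σ σ' : List Bool} (hσ : σ <+: σ') :
    cdec C i σ <+: cdec C i σ' := by
  rcases Nat.eq_zero_or_pos (cdec C i σ).length with h | h
  · rw [List.length_eq_zero_iff.1 h]
    exact List.nil_prefix
  · have h1 := hC.mono (hC.conf_cdec h) hσ
    obtain ⟨h2, h3⟩ := hC.cdec_of_conf h1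
    rcases hC.comp h1 h2 with h4 | h4
    · exact h4
    · rw [h4.eq_of_length (le_antisymm h4.length_le h3)]

/-- The string `s` is confirmed by an initial segment of `σ`, for the function `f i`. -/
def CF (f : ℕ → (ℕ → Bool) → ℕ → Bool) (i : ℕ) (σ s : List Bool) : Prop :=
  ∃ σ', σ' <+: σ ∧ s.length ≤ σ'.length ∧ (∃ z, Ini σ' (f i z)) ∧
    ∀ z, Ini σ' (f i z) → Ini s z

variable {f : ℕ → (ℕ → Bool) → ℕ → Bool}

theorem prefix_of_ini {s s' : List Bool} {z : ℕ → Bool} (h : Ini s z) (h' : Ini s' z) :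
    s <+: s' ∨ s' <+: s := by
  rcases le_total s.length s'.length with h1 | h1
  · left
    rw [← h'.pre_eq]
    exact h.prefix_pre h1
  · right
    rw [← h.pre_eq]
    exact h'.prefix_pre h1

theorem cc_CF (f : ℕ → (ℕ → Bool) → ℕ → Bool) : CC (CF f) where
  len := by
    rintro i σ s ⟨σ', h1, h2, _⟩
    exact h2.trans h1.length_le
  mono := by
    rintro i σ σ2 s ⟨σ', h1, h2, h3⟩ h
    exact ⟨σ', h1.trans h, h2, h3⟩
  comp := by
    rintro i σ s s' ⟨σ1, h1, h2, ⟨z1, h3⟩, h4⟩ ⟨σ2, h1', h2', ⟨z2, h3'⟩, h4'⟩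
    rcases List.prefix_or_prefix_of_prefix h1 h1' with h5 | h5
    · exact prefix_of_ini (h4 z2 (h3'.of_prefix h5)) (h4' z2 h3')
    · exact prefix_of_ini (h4 z1 h3) (h4' z1 (h3.of_prefix h5))

theorem continuous_of_mod {F : (ℕ → Bool) → ℕ → Bool}
    (hF : ∀ n z, ∃ k, ∀ z' : ℕ → Bool, (∀ i < k, z' i = z i) → F z' n = F z n) :
    Continuous F := by
  refine continuous_pi fun n => IsLocallyConstant.continuous
    ((IsLocallyConstant.iff_exists_open _).2 fun z => ?_)
  obtain ⟨k, hk⟩ := hF n z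
  refine ⟨{z' | Ini (pre z k) z'}, isOpen_ini _, ini_pre z k, fun z' hz' => hk z' fun i hi => ?_⟩
  have h1 := hz' i (by rw [length_pre]; exact hi)
  rw [h1, pre_getD _ _ _ _ hi]

theorem exists_CF (hc : ∀ i, Continuous (f i)) {i : ℕ} (hi : ∀ z z', f i z = f i z' → z = z')
    (z : ℕ → Bool) (m : ℕ) : ∃ t, CF f i (pre (f i z) t) (pre z m) := by
  by_contra hcon
  have h1 : ∀ t, {z' | Ini (pre (f i z) (m + t)) (f i z') ∧ ¬ Ini (pre z m) z'}.Nonempty := by
    intro t
    by_contra h2
    refine hcon ⟨m + t, pre (f i z) (m + t), List.prefix_rfl, by simp, ⟨z, ini_pre _ _⟩,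
      fun z' hz' => ?_⟩
    by_contra h3
    exact h2 ⟨z', hz', h3⟩
  have h2 : ∀ t, IsClosed {z' | Ini (pre (f i z) (m + t)) (f i z') ∧ ¬ Ini (pre z m) z'} :=
    fun t => ((isClosed_ini _).preimage (hc i)).inter (isOpen_ini _).isClosed_compl
  obtain ⟨z', hz'⟩ := IsCompact.nonempty_iInter_of_sequence_nonempty_isCompact_isClosed
    (fun t => {z' | Ini (pre (f i z) (m + t)) (f i z') ∧ ¬ Ini (pre z m) z'})
    (fun t z' hz' => ⟨hz'.1.of_prefix (pre_prefix _ (by omega)), hz'.2⟩) h1
    (h2 0).isCompact h2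
  rw [Set.mem_iInter] at hz'
  have h3 : f i z' = f i z := by
    funext n
    have h4 := (hz' (n + 1)).1 n (by rw [length_pre]; omega)
    rw [h4, pre_getD _ _ _ _ (by omega)]
  exact (hz' 0).2 (by rw [hi _ _ h3]; exact ini_pre z m)

theorem dcd_of (h2 : ∀ i n z, ∃ k, ∀ z' : ℕ → Bool, (∀ j < k, z' j = z j) → f i z' n = f i z n)
    (hu : ∀ i j z z', f i z = f j z' → z = z') :
    Dcd (fun x z => ∃ i, f i z = x) (cdec (CF f)) := by
  have hc : ∀ e, Continuous (f e) := fun e => continuous_of_mod fun n z => h2 e n z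
  refine ⟨(cc_CF f).cdec_mono, fun {b z} hb => ?_, fun {b i} hb => ?_, fun {b z z'} hb hb' => ?_⟩
  · obtain ⟨e, rfl⟩ := hb
    refine ⟨e, fun m => ?_, fun t => ?_⟩
    · obtain ⟨t, ht⟩ := exists_CF hc (hu e e) z m
      have := ((cc_CF f).cdec_of_conf ht).2
      rw [length_pre] at this
      exact ⟨t, this⟩
    · rcases Nat.eq_zero_or_pos (cdec (CF f) e (pre (f e z) t)).length with h4 | h4
      · intro i hi
        omega
      · obtain ⟨σ', h5, _, _, h6⟩ := (cc_CF f).conf_cdec h4
        exact h6 z ((ini_pre _ t).of_prefix h5)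
  · choose T hT using hb
    have hz : ∀ t n, n < (cdec (CF f) i (pre b t)).length →
        (cdec (CF f) i (pre b (T (n + 1)))).getD n false =
          (cdec (CF f) i (pre b t)).getD n false := by
      intro t n hn
      have h4 := hT (n + 1)
      rcases le_total t (T (n + 1)) with h5 | h5
      · exact getD_of_prefix ((cc_CF f).cdec_mono (pre_prefix b h5)) hn
      · exact (getD_of_prefix ((cc_CF f).cdec_mono (pre_prefix b h5)) (by omega)).symm
    refine ⟨fun n => (cdec (CF f) i (pre b (T (n + 1)))).getD n false, fun t n hn => hz t n hn,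
      i, ?_⟩
    generalize hzz : (fun n => (cdec (CF f) i (pre b (T (n + 1)))).getD n false) = z
    have hini : ∀ t, Ini (cdec (CF f) i (pre b t)) z := fun t n hn => by
      rw [← hzz]
      exact hz t n hn
    funext n
    obtain ⟨k, hk⟩ := h2 i n z
    have h4 := hT (k + (n + 1))
    obtain ⟨σ', h5, h6, ⟨z', h7⟩, h8⟩ := (cc_CF f).conf_cdec
      (i := i) (σ := pre b (T (k + (n + 1)))) (by omega)
    have h9 := h8 z' h7
    have h10 : f i z' n = f i z n := by
      refine hk z' fun j hj => ?_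
      rw [h9 j (by omega), hini (T (k + (n + 1))) j (by omega)]
    have h11 : f i z' n = b n := by
      rw [h7 n (by omega)]
      have h12 := ((ini_pre b (T (k + (n + 1)))).of_prefix h5) n (by omega)
      rw [h12]
    rw [← h10, h11]
  · obtain ⟨i, rfl⟩ := hb
    obtain ⟨j, hj⟩ := hb'
    exact (hu j i _ _ hj).symm

/-- The entries of a list belonging to the player `β`. -/
def ext (β : ℕ) (L : List Bool) : List Bool :=
  (List.range (L.length / 2)).map fun j => L.getD (2 * j + β) false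

theorem length_ext (β : ℕ) (L : List Bool) : (ext β L).length = L.length / 2 := by
  simp [ext]

theorem getD_ext (β : ℕ) (L : List Bool) {j : ℕ} (hj : j < L.length / 2) :
    (ext β L).getD j false = L.getD (2 * j + β) false := by
  rw [List.getD_eq_getElem _ _ (by rw [length_ext]; exact hj)]
  simp [ext]

theorem ext_mono {β : ℕ} (hβ : β < 2) {L L' : List Bool} (h : L <+: L') :
    ext β L <+: ext β L' := by
  have hl := h.length_le
  refine prefix_of_agree (fun n hn hn' => ?_) (by rw [length_ext, length_ext]; omega)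
  rw [length_ext] at hn hn'
  rw [getD_ext _ _ hn, getD_ext _ _ hn', getD_of_prefix h (by omega)]

theorem ini_ext {β : ℕ} (hβ : β < 2) {L : List Bool} {v : ℕ → Bool} (h : Ini L v) :
    Ini (ext β L) (part β v) := by
  intro i hi
  rw [length_ext] at hi
  rw [getD_ext _ _ hi, part, h _ (by omega)]

theorem Dcd.ext {Q : (ℕ → Bool) → (ℕ → Bool) → Prop} {D : ℕ → List Bool → List Bool}
    (hD : Dcd Q D) {β : ℕ} (hβ : β < 2) :
    Dcd (fun x z => ∃ v, Q x v ∧ part β v = z) (fun i σ => ext β (D i σ)) := by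
  refine ⟨fun {i σ σ'} h => ext_mono hβ (hD.mono h), ?_, ?_, ?_⟩
  · rintro b z ⟨v, hv, rfl⟩
    obtain ⟨i, h1, h2⟩ := hD.cand hv
    refine ⟨i, fun m => ?_, fun t => ini_ext hβ (h2 t)⟩
    obtain ⟨t, ht⟩ := h1 (2 * m)
    refine ⟨t, ?_⟩
    rw [length_ext]
    omega
  · intro b i h
    obtain ⟨v, h1, h2⟩ := hD.of_cand (b := b) (i := i) fun m => by
      obtain ⟨t, ht⟩ := h m
      rw [length_ext] at ht
      exact ⟨t, by omega⟩
    exact ⟨part β v, fun t => ini_ext hβ (h1 t), v, h2, rfl⟩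
  · rintro b z z' ⟨v, hv, rfl⟩ ⟨v', hv', rfl⟩
    rw [hD.unique hv hv']

end Pool.Agent.Y588.PC
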