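import Pool.Agent.Y588.PC.Fwd

set_option autoImplicit false

namespace Pool.Agent.Y588.PC

open Pool.Agent.Helper227 Pool.Agent.H685R3 Pool.Agent.Y588.PD

variable {Q : (ℕ → Bool) → (ℕ → Bool) → Prop} {d : ℕ → List Bool → List Bool}
  {g : List Bool → Bool} {β : ℕ}

theorem out_own (hD : Dcd Q d) {b z : ℕ → Bool} (hb : Q b z)
    {y : ℕ → Bool} (k : ℕ) : (∀ j < k, Out (sel β (uu d g β b) z j) j (y j)) → k % 2 = β →
    Out (uu d g β b) k (g (pre y k)) := by
  classical
  induction k using Nat.strong_induction_on with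
  | _ k IH =>
  intro hy hk
  have hown : ∀ l < k, l % 2 = β → y l = g (pre y l) := by
    intro l hl hlβ
    have h1 := hy l hl
    rw [sel, if_pos hlβ] at h1
    exact h1.unique (IH l hl (fun j hj => hy j (by omega)) hlβ)
  have hopp : ∀ j < k, j % 2 ≠ β → Out z j (y j) := by
    intro l hl hlβ
    have h1 := hy l hl
    rwa [sel, if_neg hlβ] at h1
  obtain ⟨i, hi1, hi2⟩ := hD.cand hb
  have hc : ∀ j, ∃ c, j < k → j % 2 ≠ β → Often z (col j c (y j)) := by
    intro j
    by_cases h1 : j < k ∧ j % 2 ≠ β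
    · obtain ⟨c, h2, _⟩ := hopp j h1.1 h1.2
      exact ⟨c, fun _ _ => h2⟩
    · exact ⟨0, fun h2 h3 => absurd ⟨h2, h3⟩ h1⟩
  choose cj hcj using hc
  obtain ⟨c0, hc0⟩ := exists_code (fun l => if l = 0 then i else cj (l - 1)) (k + 1)
  have h00 : comp c0 0 = i := by rw [hc0 0 (by omega)]; simp
  have hex : ∃ c, ∀ M, ∃ t, M ≤ meas d β c (pre b t) k := by
    refine ⟨c0, (meas_unbounded_iff hD k).2 fun j hj hjβ => ?_⟩
    have h1 : comp c0 (j + 1) = cj j := by rw [hc0 (j + 1) (by omega)]; simp
    rw [h00, h1]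
    exact mx_of_often hi2 hi1 (hcj j hj hjβ)
  obtain ⟨cs, hmem, hmin⟩ : ∃ cs, (∀ M, ∃ t, M ≤ meas d β cs (pre b t) k) ∧
      ∀ c' < cs, ¬ ∀ M, ∃ t, M ≤ meas d β c' (pre b t) k :=
    ⟨Nat.find hex, Nat.find_spec hex, fun c' h => Nat.find_min hex h⟩
  have hmx := (meas_unbounded_iff hD k).1 hmem
  have hcand : ∀ j < k, j % 2 ≠ β → (∀ m, ∃ t, m ≤ (d (comp cs 0) (pre b t)).length) ∧
      ∀ t, Ini (d (comp cs 0) (pre b t)) z := by
    intro j hj hjβ
    have h1 : ∀ m, ∃ t, m ≤ (d (comp cs 0) (pre b t)).length := by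
      intro m
      obtain ⟨t, ht⟩ := hmx j hj hjβ m
      exact ⟨t, ht.trans (mx_le_length _ _ _)⟩
    obtain ⟨z', h2, h3⟩ := hD.of_cand h1
    rw [hD.unique hb h3]
    exact ⟨h1, h2⟩
  have hgl : ∀ l ≤ k, ∃ n0, ∀ n ≥ n0, gl d g β cs (pre b n) l = pre y l := by
    intro l
    induction l with
    | zero => intro _; exact ⟨0, fun n _ => rfl⟩
    | succ l ihl =>
      intro hl
      obtain ⟨n0, h0⟩ := ihl (by omega)
      by_cases hlβ : l % 2 = β
      · refine ⟨n0, fun n hn => ?_⟩
        rw [gl, h0 n hn, if_pos hlβ, ← hown l (by omega) hlβ, pre_succ]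
      · obtain ⟨hlen, hini⟩ := hcand l (by omega) hlβ
        obtain ⟨cl, o1, o2, o3⟩ := hopp l (by omega) hlβ
        obtain ⟨v', hv'⟩ := exists_often_of_mx hini (hmx l (by omega) hlβ)
        have hcl : comp cs (l + 1) = cl := by
          rcases lt_trichotomy (comp cs (l + 1)) cl with h1 | h1 | h1
          · exact absurd hv' (o3 _ h1 v')
          · exact h1
          · exfalso
            obtain ⟨c', h2, h3, h4⟩ := exists_update cs (l + 1) cl h1
            refine hmin c' h2 ((meas_unbounded_iff hD k).2 fun j hj hjβ => ?_)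
            rw [h4 0 (by omega)]
            by_cases h5 : j = l
            · subst h5
              rw [h3]
              exact mx_of_often hini hlen o1
            · rw [h4 (j + 1) (by omega)]
              exact hmx j hj hjβ
        have h1 := lp_of_often hini hlen o1
        have h2 : ∃ M, ∀ t, lp (d (comp cs 0) (pre b t)) (col l cl (!(y l))) < M := by
          by_contra h3
          push Not at h3
          exact o2 (often_of_lp hini h3)
        obtain ⟨M, hM⟩ := h2
        obtain ⟨n1, h3⟩ := h1 M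
        refine ⟨max n0 n1, fun n hn => ?_⟩
        have h4 := hM n
        have h5 : M ≤ lp (d (comp cs 0) (pre b n)) (col l cl (y l)) :=
          h3.trans (lp_mono (hD.mono (pre_prefix b (by omega))) _)
        rw [gl, h0 n (by omega), if_neg hlβ, hcl, pre_succ]
        congr 2
        cases hyl : y l
        · rw [hyl] at h4 h5
          simp only [Bool.not_false] at h4
          exact decide_eq_false (by omega)
        · rw [hyl] at h4 h5
          simp only [Bool.not_true] at h4
          exact decide_eq_true (by omega)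
  obtain ⟨n0, h0⟩ := hgl k le_rfl
  obtain ⟨h1, h2⟩ := often_of_unbounded (g := g) (v := g (pre y k)) (n0 := n0) hD hmem hk
    fun n hn => by rw [h0 n hn]
  exact ⟨cs, h1, h2, fun c' hc' v' => not_often_of_bounded hD (hmin c' hc') v'⟩

theorem good_own (hD : Dcd Q d) (hβ : β < 2) {B : Set (ℕ → Bool)}
    (hg : ∀ y : ℕ → Bool, (∀ n, y (2 * n + β) = g (hist y (2 * n + β))) → y ∈ B)
    {b z : ℕ → Bool} (hb : Q b z) : GoodB β B (uu d g β b) z := by
  by_cases hall : ∀ k, ∃ v, Out (sel β (uu d g β b) z k) k v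
  · choose y hy using hall
    refine Or.inl ⟨y, hg y fun n => ?_, hy⟩
    have h1 : (2 * n + β) % 2 = β := by omega
    have h2 := hy (2 * n + β)
    rw [sel, if_pos h1] at h2
    exact h2.unique (out_own hD hb _ (fun j _ => hy j) h1)
  · obtain ⟨k, h1, h2⟩ := exists_least_out hall
    refine Or.inr ⟨k, fun hk => ?_, h1, h2⟩
    have h3 : ∀ j, ∃ v, j < k → Out (sel β (uu d g β b) z j) j v := by
      intro j
      by_cases hj : j < k
      · obtain ⟨v, hv⟩ := h2 j hj
        exact ⟨v, fun _ => hv⟩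
      · exact ⟨false, fun h => absurd h hj⟩
    choose y hy using h3
    have h4 := out_own (g := g) hD hb k hy hk
    refine h1 (g (pre y k)) ?_
    rw [sel, if_pos hk]
    exact h4

end Pool.Agent.Y588.PC
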