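import Pool.Agent.Y588.PC.Dcd

set_option autoImplicit false

namespace Pool.Agent.Y588.PC

open Pool.Agent.Helper227 Pool.Agent.H685R3 Pool.Agent.Y588.PD

theorem isOpen_ini (σ : List Bool) : IsOpen {x : ℕ → Bool | Ini σ x} := by
  have h1 : {x : ℕ → Bool | Ini σ x} =
      ⋂ i ∈ Finset.range σ.length, {x : ℕ → Bool | x i = σ.getD i false} := by
    ext x
    simp [Ini]
  rw [h1]
  refine isOpen_biInter_finset fun i _ => ?_
  have h2 : IsOpen ((fun x : ℕ → Bool => x i) ⁻¹' {σ.getD i false}) :=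
    (isOpen_discrete _).preimage (continuous_apply i)
  exact h2

theorem isClosed_ini (σ : List Bool) : IsClosed {x : ℕ → Bool | Ini σ x} := by
  have h1 : {x : ℕ → Bool | Ini σ x} =
      ⋂ i ∈ Finset.range σ.length, {x : ℕ → Bool | x i = σ.getD i false} := by
    ext x
    simp [Ini]
  rw [h1]
  refine isClosed_biInter fun i _ => ?_
  have h2 : IsClosed ((fun x : ℕ → Bool => x i) ⁻¹' {σ.getD i false}) :=
    (isClosed_discrete _).preimage (continuous_apply i)
  exact h2

theorem exists_cone {W : Set (ℕ → Bool)} (hW : IsOpen W) {x : ℕ → Bool} (hx : x ∈ W) :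
    ∃ k, ∀ y, Ini (pre x k) y → y ∈ W := by
  obtain ⟨I, u, h1, h2⟩ := isOpen_pi_iff.1 hW x hx
  refine ⟨I.sup id + 1, fun y hy => h2 fun a ha => ?_⟩
  have h3 : a ≤ I.sup id := Finset.le_sup (f := id) ha
  have h4 := hy a (by rw [length_pre]; omega)
  rw [pre_getD _ _ _ _ (by omega)] at h4
  rw [h4]
  exact (h1 a ha).2

theorem exists_ini (σ : List Bool) : ∃ x : ℕ → Bool, Ini σ x :=
  ⟨fun n => σ.getD n false, fun _ _ => rfl⟩

theorem exists_mem_ini {D : Set (ℕ → Bool)} (hD : Dense D) (σ : List Bool) :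
    ∃ x ∈ D, Ini σ x := by
  obtain ⟨x, h1, h2⟩ := hD.inter_open_nonempty _ (isOpen_ini σ) (exists_ini σ)
  exact ⟨x, h2, h1⟩

theorem exists_set (g : ℕ → (ℕ → Bool) → ℕ → Bool) (hg : ∀ n, Measurable (g n))
    {P : (ℕ → Bool) → Prop} (hP : ∀ᶠ x in residual (ℕ → Bool), P x) :
    ∃ G ∈ residual (ℕ → Bool), (∀ x ∈ G, P x) ∧
      ∀ e n, ∀ x ∈ G, ∃ k, ∀ y ∈ G, Ini (pre x k) y → g e y n = g e x n := by
  have h1 : ∀ e n, ∃ U : Set (ℕ → Bool), IsOpen U ∧
      {x : ℕ → Bool | g e x n = true} =ᶠ[residual (ℕ → Bool)] U := fun e n =>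
    MeasurableSet.residualEq_isOpen
      (((measurable_pi_apply n).comp (hg e)) (measurableSet_singleton true))
  choose U hU1 hU2 using h1
  refine ⟨{x | P x ∧ ∀ e n, (x ∈ {x : ℕ → Bool | g e x n = true} ↔ x ∈ U e n) ∧
    x ∈ U e n ∪ (closure (U e n))ᶜ}, ?_, fun x hx => hx.1, ?_⟩
  · refine hP.and (eventually_countable_forall.2 fun e => eventually_countable_forall.2 fun n =>
      (hU2 e n).mem_iff.and ?_)
    have h3 : Dense (U e n ∪ (closure (U e n))ᶜ) := by
      rw [dense_iff_closure_eq, closure_union, Set.eq_univ_iff_forall]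
      intro x
      by_cases hx : x ∈ closure (U e n)
      · exact Or.inl hx
      · exact Or.inr (subset_closure hx)
    exact residual_of_dense_open ((hU1 e n).union isClosed_closure.isOpen_compl) h3
  · rintro e n x ⟨_, hx⟩
    obtain ⟨h1, h2⟩ := hx e n
    rcases h2 with h2 | h2
    · obtain ⟨k, hk⟩ := exists_cone (hU1 e n) h2
      refine ⟨k, fun y hy hi => ?_⟩
      have h3 : g e x n = true := h1.2 h2
      have h4 : g e y n = true := (hy.2 e n).1.2 (hk y hi)
      rw [h3, h4]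
    · obtain ⟨k, hk⟩ := exists_cone isClosed_closure.isOpen_compl h2
      refine ⟨k, fun y hy hi => ?_⟩
      have h3 : g e x n = false := by
        by_contra h3
        exact h2 (subset_closure (h1.1 (by simpa using h3)))
      have h4 : g e y n = false := by
        by_contra h4
        exact hk y hi (subset_closure ((hy.2 e n).1.1 (by simpa using h4)))
      rw [h3, h4]

theorem exists_seq {G : Set (ℕ → Bool)} (hG : G ∈ residual (ℕ → Bool)) :
    ∃ O : ℕ → Set (ℕ → Bool), (∀ n, IsOpen (O n)) ∧ (∀ n, Dense (O n)) ∧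
      ∀ x, (∀ n, x ∈ O n) → x ∈ G := by
  obtain ⟨S, h1, h2, h3, h4⟩ := mem_residual_iff.1 hG
  obtain ⟨f, hf⟩ := (h3.insert Set.univ).exists_eq_range (Set.insert_nonempty _ _)
  have h5 : ∀ n, f n = Set.univ ∨ f n ∈ S := fun n => by
    have h6 : f n ∈ insert Set.univ S := by
      rw [hf]
      exact Set.mem_range_self n
    exact h6
  refine ⟨f, fun n => ?_, fun n => ?_, fun x hx => h4 fun s hs => ?_⟩
  · rcases h5 n with h6 | h6
    · rw [h6]
      exact isOpen_univ
    · exact h1 _ h6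
  · rcases h5 n with h6 | h6
    · rw [h6]
      exact dense_univ
    · exact h2 _ h6
  · have h6 : s ∈ Set.range f := by
      rw [← hf]
      exact Set.mem_insert_of_mem _ hs
    obtain ⟨n, rfl⟩ := h6
    exact hx n

theorem pre_ne {u v : ℕ → Bool} {i n : ℕ} (hi : i < n) (h : u i ≠ v i) : pre u n ≠ pre v n := by
  intro h2
  have h3 := pre_getD u n i false hi
  rw [h2, pre_getD _ _ _ _ hi] at h3
  exact h h3.symm

end Pool.Agent.Y588.PC
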