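import Pool.Agent.Y588.PD.Main
import Pool.Agent.Y588.PC.Dec
import Pool.Agent.Y588.PC.Back

set_option autoImplicit false

namespace Pool.Agent.Y588.PC

open Encodable
open Pool.Agent.Helper227 Pool.Agent.H685R3 Pool.Agent.Y588.PD

/-- The play of the strategy `s` of the player `β` against the code of `z`. -/
def XX (s : List Bool → Bool) (κ : (ℕ → Bool) → ℕ → Bool) (β : ℕ) (z : ℕ → Bool) : ℕ → Bool :=
  play (fun n => s ((decode (α := List Bool) n).getD [])) (κ z) β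

variable {s : List Bool → Bool} {κ : (ℕ → Bool) → ℕ → Bool} {β : ℕ}

theorem XX_own (hβ : β < 2) (z : ℕ → Bool) (n : ℕ) :
    XX s κ β z (2 * n + β) = s (hist (XX s κ β z) (2 * n + β)) := by
  rw [XX, play_own hβ]
  simp [hist_eq_pre]

theorem XX_opp (hβ : β < 2) (z : ℕ → Bool) : part (1 - β) (XX s κ β z) = κ z :=
  funext fun n => by
    rw [part, XX]
    exact play_other hβ n

theorem lip_XX (hκ : ∀ u v : ℕ → Bool, ∀ n, (∀ i < n + 1, u i = v i) → κ u n = κ v n) :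
    Lip (XX s κ β) := by
  intro z z' m h
  refine List.map_congr_left fun i hi => ?_
  rw [List.mem_range] at hi
  have h1 : ∀ i < m, κ z i = κ z' i := fun i hi => hκ _ _ _ fun j hj => h j (by omega)
  rw [XX, XX, play, play, plays_congr h1 _ (by omega), bit, bit]
  by_cases h2 : i % 2 = β
  · rw [if_pos h2, if_pos h2]
  · rw [if_neg h2, if_neg h2, h1 _ (by omega)]

/-- The play `x` is equivalent to the play of some codes, where `z` is the data of the
player `β`. -/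
def Enc (R : (ℕ → Bool) → (ℕ → Bool) → Prop) (κ₀ κ₁ : (ℕ → Bool) → ℕ → Bool) (β : ℕ)
    (x z : ℕ → Bool) : Prop :=
  ∃ v, R (KK κ₀ κ₁ v) x ∧ part β v = z

theorem KK_join (κ₀ κ₁ : (ℕ → Bool) → ℕ → Bool) (u z : ℕ → Bool) :
    KK κ₀ κ₁ (join u z) = join (κ₀ u) (κ₁ z) := by
  rw [KK, part_join_zero, part_join_one]

theorem own_eq {d : ℕ → List Bool → List Bool} {g : List Bool → Bool} (hβ : β < 2)
    (hκ : ∀ u v : ℕ → Bool, ∀ n, (∀ i < n + 1, u i = v i) → κ u n = κ v n) {x : ℕ → Bool}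
    (hx : ∀ n, x (2 * n + β) = (fun L : List Bool => κ (uu d g β fun i => L.getD i false)
      (L.length / 2)) (hist x (2 * n + β))) : part β x = κ (uu d g β x) := by
  funext n
  rw [part, hx n, hist_eq_pre]
  simp only [length_pre]
  rw [show (2 * n + β) / 2 = n by omega]
  refine hκ _ _ _ fun m hm => uu_congr fun i hi => ?_
  rw [pre_getD _ _ _ _ (by omega)]

theorem main {R : (ℕ → Bool) → (ℕ → Bool) → Prop} (hR : GenericallyCountable R) :
    ∃ κ₀ κ₁ : (ℕ → Bool) → ℕ → Bool, Continuous κ₀ ∧ Continuous κ₁ ∧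
      Function.Injective κ₀ ∧ ∀ C : Set (ℕ → Bool), Set.range κ₀ ⊆ C → C ⊆ Replaceable R κ₀ → ∀ A : Set (ℕ → Bool),
        InvariantFor R (CodedFor R κ₀ κ₁ A) ∧
        (WinsI (Restrict C (CodedFor R κ₀ κ₁ A)) ↔ WinsI A) ∧
        (WinsII (Restrict C (CodedFor R κ₀ κ₁ A)) ↔ WinsII A) := by
  obtain ⟨hEq, g, hg, hP⟩ := hR
  obtain ⟨κ₀, κ₁, ⟨c0, c1⟩, hlip, hmem, hmod, h0, h1⟩ := exists_maps hg hP
  have hl0 : ∀ u v : ℕ → Bool, ∀ n, (∀ i < n + 1, u i = v i) → κ₀ u n = κ₀ v n :=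
    fun u v n h => (hlip u v n h).1
  have hl1 : ∀ u v : ℕ → Bool, ∀ n, (∀ i < n + 1, u i = v i) → κ₁ u n = κ₁ v n :=
    fun u v n h => (hlip u v n h).2
  have hD : Dcd (fun x v => ∃ e, g e (KK κ₀ κ₁ v) = x)
      (cdec (CF fun e v => g e (KK κ₀ κ₁ v))) := by
    refine dcd_of hmod fun i j v v' h => ?_
    have h2 : R (KK κ₀ κ₁ v) (KK κ₀ κ₁ v') :=
      hEq.trans ((hmem v _).2 ⟨i, rfl⟩) (by rw [h]; exact hEq.symm ((hmem v' _).2 ⟨j, rfl⟩))
    rw [← join_part v, ← join_part v', h0 v _ _ h2, h1 v _ _ h2]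
  have hE : ∀ β < 2, ∃ d, Dcd (Enc R κ₀ κ₁ β) d := by
    intro β hβ
    have h2 : (fun x z => ∃ v, (∃ e, g e (KK κ₀ κ₁ v) = x) ∧ part β v = z) =
        Enc R κ₀ κ₁ β := by
      funext x z
      refine propext (exists_congr fun v => and_congr_left fun _ => (hmem v x).symm)
    exact ⟨_, h2 ▸ hD.ext hβ⟩
  have henc : ∀ (u z x : ℕ → Bool), R x (join (κ₀ u) (κ₁ z)) →
      Enc R κ₀ κ₁ 0 x u ∧ Enc R κ₀ κ₁ 1 x z := by
    intro u z x h
    refine ⟨⟨join u z, ?_, part_join_zero _ _⟩, ⟨join u z, ?_, part_join_one _ _⟩⟩ <;>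
    · rw [KK_join]
      exact hEq.symm h
  have hown : ∀ (u u' z x : ℕ → Bool), part 0 x = κ₀ u → R x (join (κ₀ u') (κ₁ z)) → u' = u := by
    intro u u' z x hx h
    have h2 : R (KK κ₀ κ₁ (join u' z)) (join (κ₀ u) (part 1 x)) := by
      rw [KK_join, ← hx, join_part]
      exact hEq.symm h
    have h3 := h0 _ _ _ h2
    rwa [part_join_zero] at h3
  refine ⟨κ₀, κ₁, c0, c1, fun u u' h => (hown u' u (part 1 (join (κ₀ u) u)) (join (κ₀ u)
    (κ₁ (part 1 (join (κ₀ u) u)))) (by rw [part_join_zero, h]) (hEq.refl _)),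
    fun C hC1 hC2 A => ⟨fun x y hxy hx u z h =>
    hx u z (hEq.trans hxy h), ?_, ?_⟩⟩
  · rw [winsI_iff, winsI_iff]
    constructor
    · rintro ⟨s, hs⟩
      obtain ⟨d, hd⟩ := hE 0 (by omega)
      refine wins_of_good hd (lip_XX (s := s) (β := 0) hl1) fun z => ?_
      obtain ⟨h2, h3⟩ := hs (XX s κ₁ 0 z) (XX_own (by omega) z)
      have h4 : part 1 (XX s κ₁ 0 z) = κ₁ z := XX_opp (β := 0) (by omega) z
      obtain ⟨u, hu⟩ := hC2 h2
      have h5 := hu (κ₁ z)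
      rw [← h4, join_part, h4] at h5
      exact ⟨u, (henc u z _ h5).1, (good_iff A u z).1 (h3 u z h5)⟩
    · rintro ⟨g', hg'⟩
      obtain ⟨d, hd⟩ := hE 1 (by omega)
      refine ⟨fun L => κ₀ (uu d g' 0 fun i => L.getD i false) (L.length / 2), fun x hx => ?_⟩
      have h2 : part 0 x = κ₀ (uu d g' 0 x) := own_eq (by omega) hl0 hx
      refine ⟨?_, fun u z h => ?_⟩
      · rw [h2]
        exact hC1 ⟨_, rfl⟩
      · have h3 := hown _ _ _ _ h2 h
        rw [h3, good_iff]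
        exact good_own hd (by omega) hg' (henc u z x h).2
  · rw [winsII_iff, winsII_iff]
    constructor
    · rintro ⟨s, hs⟩
      obtain ⟨d, hd⟩ := hE 1 (by omega)
      refine wins_of_good hd (lip_XX (s := s) (β := 1) hl0) fun u => ?_
      have h2 := hs (XX s κ₀ 1 u) (XX_own (by omega) u)
      have h4 : part 0 (XX s κ₀ 1 u) = κ₀ u := XX_opp (β := 1) (by omega) u
      have h3 : ∃ u' z, R (XX s κ₀ 1 u) (join (κ₀ u') (κ₁ z)) ∧ ¬ Good A u' z := by
        by_contra h3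
        push Not at h3
        refine h2 ⟨?_, h3⟩
        rw [h4]
        exact hC1 ⟨_, rfl⟩
      obtain ⟨u', z, h5, h6⟩ := h3
      have h7 := hown _ _ _ _ h4 h5
      subst h7
      exact ⟨z, (henc _ z _ h5).2, (not_good_iff A _ z).1 h6⟩
    · rintro ⟨g', hg'⟩
      obtain ⟨d, hd⟩ := hE 0 (by omega)
      refine ⟨fun L => κ₁ (uu d g' 1 fun i => L.getD i false) (L.length / 2), fun x hx => ?_⟩
      have h2 : part 1 x = κ₁ (uu d g' 1 x) := own_eq (by omega) hl1 hx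
      rintro ⟨h3, h4⟩
      obtain ⟨u, hu⟩ := hC2 h3
      have h5 := hu (part 1 x)
      rw [join_part, h2] at h5
      exact (not_good_iff A u _).2 (good_own hd (by omega) hg' (henc u _ x h5).1) (h4 u _ h5)

end Pool.Agent.Y588.PC
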