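import Pool.Agent.Y588.PC.Tri

set_option autoImplicit false

namespace Pool.Agent.Y588.PC

open Pool.Agent.Helper227 Pool.Agent.H685R3 Pool.Agent.Y588.PD

/-- The play in which the players play the codes of the two parts of `v`. -/
def KK (κ0 κ1 : (ℕ → Bool) → ℕ → Bool) (v : ℕ → Bool) : ℕ → Bool :=
  join (κ0 (part 0 v)) (κ1 (part 1 v))

theorem exists_maps {R : (ℕ → Bool) → (ℕ → Bool) → Prop}
    {g : ℕ → (ℕ → Bool) → ℕ → Bool} (hg : ∀ n, Measurable (g n))
    (hP : ∀ᶠ x in residual (ℕ → Bool), ∀ y, R x y ↔ ∃ n, g n x = y) :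
    ∃ κ0 κ1 : (ℕ → Bool) → ℕ → Bool, (Continuous κ0 ∧ Continuous κ1) ∧
      (∀ u v n, (∀ i < n + 1, u i = v i) → κ0 u n = κ0 v n ∧ κ1 u n = κ1 v n) ∧
      (∀ v y, R (KK κ0 κ1 v) y ↔ ∃ n, g n (KK κ0 κ1 v) = y) ∧
      (∀ e n v, ∃ k, ∀ v' : ℕ → Bool, (∀ i < k, v' i = v i) →
        g e (KK κ0 κ1 v') n = g e (KK κ0 κ1 v) n) ∧
      (∀ v u y, R (KK κ0 κ1 v) (join (κ0 u) y) → part 0 v = u) ∧
      ∀ v z y, R (KK κ0 κ1 v) (join y (κ1 z)) → part 1 v = z := by
  obtain ⟨G, hG1, hG2, hG3⟩ := exists_set g hg hP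
  obtain ⟨O, hO1, hO2, hO3⟩ := exists_seq hG1
  have hGd : Dense G := dense_of_mem_residual hG1
  obtain ⟨τ, h1, h2⟩ := exists_ttree (TP g G O)
    (fun e σ ρ μ σ' ρ' μ' hσ hρ hμ h => ⟨fun x y z hx hy hz => h.1 x y z (hx.of_prefix hσ)
      (hy.of_prefix hρ) (hz.of_prefix hμ), fun y z hy hz => h.2 y z (hy.of_prefix hρ)
      (hz.of_prefix hμ)⟩)
    (fun e σ ρ μ => exists_TP hGd hO1 hO2 hG3 e σ ρ μ)
  have hT : Tree (fun _ _ _ _ => False) τ := ⟨h1, fun e s s' _ _ _ x y _ _ h => (h 0).choose_spec⟩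
  have hne : ∀ (u v : ℕ → Bool) (n : ℕ), pre (cs false u) (n + 1) ≠ pre (cs true v) (n + 1) :=
    fun u v n => pre_ne (i := 0) (by omega) (by rw [cs_zero, cs_zero]; simp)
  have hne2 : ∀ (b : Bool) (u v : ℕ → Bool) (i n : ℕ), u i ≠ v i → i + 1 < n →
      pre (cs b u) n ≠ pre (cs b v) n := fun b u v i n hi hn =>
    pre_ne (i := i + 1) hn (by rw [cs_succ, cs_succ]; exact hi)
  have hκ : ∀ u z, join (kap τ (cs false u)) (kap τ (cs true z)) ∈ G := by
    intro u z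
    refine hO3 _ fun j => ?_
    exact (h2 j (j + 2) (pre (cs false fun n => !(u n)) (j + 2)) (pre (cs false u) (j + 2))
      (pre (cs true z) (j + 2)) (by simp) (by simp) (by simp)
      (hne2 _ _ _ 0 _ (by simp) (by omega)) (hne _ _ _) (hne _ _ _) (by omega)).2 _ _
      (hT.ini_kap _ _) (hT.ini_kap _ _)
  have hcs : ∀ (b : Bool) (u v : ℕ → Bool) (n : ℕ), (∀ i < n + 1, u i = v i) →
      kap τ (cs b u) n = kap τ (cs b v) n := by
    intro b u v n h
    refine kap_congr τ fun i hi => ?_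
    cases i with
    | zero => rw [cs_zero, cs_zero]
    | succ i => rw [cs_succ, cs_succ, h i (by omega)]
  have hcont : ∀ b, Continuous (cs b) := by
    intro b
    refine continuous_pi fun n => ?_
    cases n with
    | zero => simp only [cs_zero]; exact continuous_const
    | succ n => simp only [cs_succ]; exact continuous_apply n
  refine ⟨fun u => kap τ (cs false u), fun z => kap τ (cs true z),
    ⟨(continuous_kap τ).comp (hcont false), (continuous_kap τ).comp (hcont true)⟩,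
    fun u v n h => ⟨hcs _ _ _ _ h, hcs _ _ _ _ h⟩, fun v => hG2 _ (hκ _ _), fun e n v => ?_,
    fun v u y h => ?_, fun v z y h => ?_⟩
  · obtain ⟨k, hk⟩ := hG3 e n _ (hκ (part 0 v) (part 1 v))
    refine ⟨2 * k, fun v' hv' => hk _ (hκ _ _) ?_⟩
    refine (ini_join (k := k) (fun i hi => ?_) (fun i hi => ?_)).of_prefix
      (pre_prefix _ (by omega))
    · rw [length_pre] at hi
      rw [pre_getD _ _ _ _ hi]
      exact hcs _ _ _ _ fun j hj => hv' _ (by omega)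
    · rw [length_pre] at hi
      rw [pre_getD _ _ _ _ hi]
      exact hcs _ _ _ _ fun j hj => hv' _ (by omega)
  · by_contra hcon
    obtain ⟨i, hi⟩ := Function.ne_iff.1 hcon
    obtain ⟨e, he⟩ := (hG2 _ (hκ _ _) _).1 h
    refine (h2 e (i + 1 + (e + 1)) (pre (cs false u) (i + 1 + (e + 1)))
      (pre (cs false (part 0 v)) (i + 1 + (e + 1))) (pre (cs true (part 1 v)) (i + 1 + (e + 1)))
      (by simp) (by simp) (by simp) (hne2 _ _ _ i _ (Ne.symm hi) (by omega)) (hne _ _ _)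
      (hne _ _ _) (by omega)).1 _ _ _ (hT.ini_kap _ _) (hT.ini_kap _ _) (hT.ini_kap _ _)
      (hκ _ _) 0 (by omega) ?_
    rw [he, part_join_zero]
  · by_contra hcon
    obtain ⟨i, hi⟩ := Function.ne_iff.1 hcon
    obtain ⟨e, he⟩ := (hG2 _ (hκ _ _) _).1 h
    refine (h2 e (i + 1 + (e + 1)) (pre (cs true z) (i + 1 + (e + 1)))
      (pre (cs false (part 0 v)) (i + 1 + (e + 1))) (pre (cs true (part 1 v)) (i + 1 + (e + 1)))
      (by simp) (by simp) (by simp) (hne _ _ _).symm (hne2 _ _ _ i _ (Ne.symm hi) (by omega))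
      (hne _ _ _) (by omega)).1 _ _ _ (hT.ini_kap _ _) (hT.ini_kap _ _) (hT.ini_kap _ _)
      (hκ _ _) 1 (by omega) ?_
    rw [he, part_join_one]

end Pool.Agent.Y588.PC
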