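import Pool.Agent.Y588.PC.Gen

set_option autoImplicit false

namespace Pool.Agent.Y588.PC

open Pool.Agent.Helper227 Pool.Agent.H685R3 Pool.Agent.Y588.PD

theorem exists_tlist (P : ℕ → List Bool → List Bool → List Bool → Prop)
    (hP1 : ∀ e σ ρ μ σ' ρ' μ', σ <+: σ' → ρ <+: ρ' → μ <+: μ' → P e σ ρ μ → P e σ' ρ' μ')
    (hP2 : ∀ e σ ρ μ, ∃ σ' ρ' μ', σ <+: σ' ∧ ρ <+: ρ' ∧ μ <+: μ' ∧ P e σ' ρ' μ')
    (J : List (List Bool × List Bool × List Bool × ℕ)) (T : List Bool → List Bool) :
    ∃ T' : List Bool → List Bool, (∀ s, T s <+: T' s) ∧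
      ∀ q ∈ J, q.1 ≠ q.2.1 → q.1 ≠ q.2.2.1 → q.2.1 ≠ q.2.2.1 →
        P q.2.2.2 (T' q.1) (T' q.2.1) (T' q.2.2.1) := by
  induction J with
  | nil => exact ⟨T, fun s => List.prefix_rfl, fun q hq => by simp at hq⟩
  | cons q J ih =>
    obtain ⟨T', h1, h2⟩ := ih
    by_cases hq : q.1 ≠ q.2.1 ∧ q.1 ≠ q.2.2.1 ∧ q.2.1 ≠ q.2.2.1
    · obtain ⟨ha, hb, hc⟩ := hq
      obtain ⟨σ, ρ, μ, h3, h4, h5, h6⟩ := hP2 q.2.2.2 (T' q.1) (T' q.2.1) (T' q.2.2.1)
      have h7 : ∀ s, T' s <+: Function.update (Function.update (Function.update T' q.1 σ)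
          q.2.1 ρ) q.2.2.1 μ s := by
        intro s
        by_cases h7 : s = q.2.2.1
        · rw [h7, Function.update_self]
          exact h5
        · rw [Function.update_of_ne h7]
          by_cases h8 : s = q.2.1
          · rw [h8, Function.update_self]
            exact h4
          · rw [Function.update_of_ne h8]
            by_cases h9 : s = q.1
            · rw [h9, Function.update_self]
              exact h3
            · rw [Function.update_of_ne h9]
      refine ⟨_, fun s => (h1 s).trans (h7 s), fun r hr ha' hb' hc' => ?_⟩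
      rcases List.mem_cons.1 hr with rfl | hr
      · rw [Function.update_self, Function.update_of_ne hc, Function.update_self,
          Function.update_of_ne hb, Function.update_of_ne ha, Function.update_self]
        exact h6
      · exact hP1 _ _ _ _ _ _ _ (h7 _) (h7 _) (h7 _) (h2 r hr ha' hb' hc')
    · refine ⟨T', h1, fun r hr ha' hb' hc' => ?_⟩
      rcases List.mem_cons.1 hr with rfl | hr
      · exact absurd ⟨ha', hb', hc'⟩ hq
      · exact h2 r hr ha' hb' hc'

theorem exists_ttree (P : ℕ → List Bool → List Bool → List Bool → Prop)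
    (hP1 : ∀ e σ ρ μ σ' ρ' μ', σ <+: σ' → ρ <+: ρ' → μ <+: μ' → P e σ ρ μ → P e σ' ρ' μ')
    (hP2 : ∀ e σ ρ μ, ∃ σ' ρ' μ', σ <+: σ' ∧ ρ <+: ρ' ∧ μ <+: μ' ∧ P e σ' ρ' μ') :
    ∃ τ : List Bool → List Bool, (∀ s b, τ s ++ [b] <+: τ (s ++ [b])) ∧
      ∀ e n s s' s'', s.length = n → s'.length = n → s''.length = n → s ≠ s' → s ≠ s'' →
        s' ≠ s'' → e < n → P e (τ s) (τ s') (τ s'') := by
  have step : ∀ (n : ℕ) (T : List Bool → List Bool), ∃ T' : List Bool → List Bool,
      (∀ s b, T s ++ [b] <+: T' (s ++ [b])) ∧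
      ∀ e s s' s'', s.length = n + 1 → s'.length = n + 1 → s''.length = n + 1 → s ≠ s' →
        s ≠ s'' → s' ≠ s'' → e < n + 1 → P e (T' s) (T' s') (T' s'') := by
    intro n T
    have hfin : ({s : List Bool | s.length = n + 1} ×ˢ ({s : List Bool | s.length = n + 1} ×ˢ
        ({s : List Bool | s.length = n + 1} ×ˢ {e : ℕ | e < n + 1}))).Finite :=
      (List.finite_length_eq Bool (n + 1)).prod ((List.finite_length_eq Bool (n + 1)).prod
        ((List.finite_length_eq Bool (n + 1)).prod (Set.finite_lt_nat (n + 1))))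
    obtain ⟨T', h1, h2⟩ := exists_tlist P hP1 hP2 hfin.toFinset.toList
      fun s => T s.dropLast ++ [s.getLastD false]
    refine ⟨T', fun s b => ?_, fun e s s' s'' hs hs' hs'' ha hb hc he => ?_⟩
    · have := h1 (s ++ [b])
      simpa using this
    · refine h2 (s, s', s'', e) ?_ ha hb hc
      rw [Finset.mem_toList, Set.Finite.mem_toFinset]
      exact ⟨hs, hs', hs'', he⟩
  choose F hF1 hF2 using step
  let T : ℕ → List Bool → List Bool := fun n => Nat.rec (fun _ => []) (fun n T => F n T) n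
  have hT : ∀ n, T (n + 1) = F n (T n) := fun n => rfl
  refine ⟨fun s => T s.length s, fun s b => ?_, fun e n s s' s'' hl hl' hl'' ha hb hc he => ?_⟩
  · simp only [List.length_append, List.length_singleton, hT]
    exact hF1 _ _ _ _
  · obtain ⟨m, hm⟩ : ∃ m, n = m + 1 := ⟨n - 1, by omega⟩
    subst hm
    show P e (T s.length s) (T s'.length s') (T s''.length s'')
    rw [hl, hl', hl'', hT]
    exact hF2 m _ e s s' s'' hl hl' hl'' ha hb hc he

theorem part_join_zero (y z : ℕ → Bool) : part 0 (join y z) = y :=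
  funext fun n => join_even y z n

theorem part_join_one (y z : ℕ → Bool) : part 1 (join y z) = z :=
  funext fun n => join_odd y z n

theorem join_part (x : ℕ → Bool) : join (part 0 x) (part 1 x) = x := by
  funext n
  rcases Nat.even_or_odd' n with ⟨k, rfl | rfl⟩
  · rw [join_even]
    rfl
  · rw [join_odd]
    rfl

theorem continuous_part (β : ℕ) : Continuous (part β) :=
  continuous_pi fun n => continuous_apply (2 * n + β)

/-- The members of the two cones. -/
theorem ini_join {y y' z z' : ℕ → Bool} {k : ℕ} (h : Ini (pre y k) y') (h' : Ini (pre z k) z') :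
    Ini (pre (join y z) (2 * k)) (join y' z') := by
  intro i hi
  rw [length_pre] at hi
  rw [pre_getD _ _ _ _ hi]
  rcases Nat.even_or_odd' i with ⟨j, rfl | rfl⟩
  · rw [join_even, join_even, h j (by rw [length_pre]; omega), pre_getD _ _ _ _ (by omega)]
  · rw [join_odd, join_odd, h' j (by rw [length_pre]; omega), pre_getD _ _ _ _ (by omega)]

theorem exists_mem_two {D : Set (ℕ → Bool)} (hD : Dense D) (σ ρ : List Bool) :
    ∃ x ∈ D, Ini σ (part 0 x) ∧ Ini ρ (part 1 x) := by
  obtain ⟨y, hy⟩ := exists_ini σ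
  obtain ⟨z, hz⟩ := exists_ini ρ
  obtain ⟨x, h1, h2⟩ := hD.inter_open_nonempty _
    (((isOpen_ini σ).preimage (continuous_part 0)).inter
      ((isOpen_ini ρ).preimage (continuous_part 1)))
    ⟨join y z, by
      show Ini σ (part 0 (join y z)) ∧ Ini ρ (part 1 (join y z))
      rw [part_join_zero, part_join_one]
      exact ⟨hy, hz⟩⟩
  exact ⟨x, h2, h1⟩

/-- The property of three cones. -/
def TP (g : ℕ → (ℕ → Bool) → ℕ → Bool) (G : Set (ℕ → Bool)) (O : ℕ → Set (ℕ → Bool)) (e : ℕ)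
    (σ ρ μ : List Bool) : Prop :=
  (∀ x y z, Ini σ x → Ini ρ y → Ini μ z → join y z ∈ G → ∀ β < 2,
    part β (g e (join y z)) ≠ x) ∧
  ∀ y z, Ini ρ y → Ini μ z → join y z ∈ O e

theorem exists_TP {g : ℕ → (ℕ → Bool) → ℕ → Bool} {G : Set (ℕ → Bool)}
    {O : ℕ → Set (ℕ → Bool)} (hG : Dense G) (hO1 : ∀ n, IsOpen (O n)) (hO2 : ∀ n, Dense (O n))
    (hG3 : ∀ e n, ∀ x ∈ G, ∃ k, ∀ y ∈ G, Ini (pre x k) y → g e y n = g e x n)
    (e : ℕ) (σ ρ μ : List Bool) :
    ∃ σ' ρ' μ', σ <+: σ' ∧ ρ <+: ρ' ∧ μ <+: μ' ∧ TP g G O e σ' ρ' μ' := by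
  obtain ⟨y, hy, hyρ, hyμ⟩ := exists_mem_two hG ρ μ
  obtain ⟨k0, hk0⟩ := hG3 e (2 * σ.length) y hy
  obtain ⟨k1, hk1⟩ := hG3 e (2 * (σ.length + 1) + 1) y hy
  obtain ⟨k, ha, hb, hc, hd⟩ : ∃ k, k0 ≤ 2 * k ∧ k1 ≤ 2 * k ∧ ρ.length ≤ k ∧ μ.length ≤ k :=
    ⟨k0 + k1 + ρ.length + μ.length, by omega, by omega, by omega, by omega⟩
  obtain ⟨y', hy', hy0, hy1⟩ := exists_mem_two (hO2 e) (pre (part 0 y) k) (pre (part 1 y) k)
  obtain ⟨l, hl⟩ := exists_cone (hO1 e) hy'
  refine ⟨σ ++ [!(g e y (2 * σ.length)), !(g e y (2 * (σ.length + 1) + 1))],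
    pre (part 0 y') (k + l), pre (part 1 y') (k + l), List.prefix_append _ _,
    (hyρ.prefix_pre hc).trans (hy0.prefix_pre (by rw [length_pre]; omega)),
    (hyμ.prefix_pre hd).trans (hy1.prefix_pre (by rw [length_pre]; omega)),
    fun x y2 z2 hx hy2 hz2 hG2 β hβ heq => ?_, fun y2 z2 hy2 hz2 => ?_⟩
  · have h1 : Ini (pre (join (part 0 y) (part 1 y)) (2 * k)) (join y2 z2) :=
      ini_join (hy2.of_prefix (hy0.prefix_pre (by rw [length_pre]; omega)))
        (hz2.of_prefix (hy1.prefix_pre (by rw [length_pre]; omega)))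
    rw [join_part] at h1
    have h2 := hk0 _ hG2 (h1.of_prefix (pre_prefix y ha))
    have h3 := hk1 _ hG2 (h1.of_prefix (pre_prefix y hb))
    have h4 : x σ.length = !(g e y (2 * σ.length)) := by
      rw [hx σ.length (by simp)]
      simp [List.getD]
    have h5 : x (σ.length + 1) = !(g e y (2 * (σ.length + 1) + 1)) := by
      rw [hx (σ.length + 1) (by simp)]
      simp [List.getD]
    rcases (show β = 0 ∨ β = 1 by omega) with rfl | rfl
    · rw [← heq] at h4
      simp only [part, Nat.add_zero] at h4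
      rw [h2] at h4
      revert h4
      cases g e y (2 * σ.length) <;> simp
    · rw [← heq] at h5
      simp only [part] at h5
      rw [h3] at h5
      revert h5
      cases g e y (2 * (σ.length + 1) + 1) <;> simp
  · refine hl _ ?_
    have h1 := ini_join hy2 hz2
    rw [join_part] at h1
    exact h1.of_prefix (pre_prefix y' (by omega))

/-- The sequence with the first bit `b`. -/
def cs (b : Bool) (u : ℕ → Bool) (n : ℕ) : Bool := if n = 0 then b else u (n - 1)

theorem cs_zero (b : Bool) (u : ℕ → Bool) : cs b u 0 = b := by simp [cs]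

theorem cs_succ (b : Bool) (u : ℕ → Bool) (n : ℕ) : cs b u (n + 1) = u n := by simp [cs]

theorem cs_inj {b : Bool} {u v : ℕ → Bool} (h : cs b u = cs b v) : u = v := by
  funext n
  have := congrFun h (n + 1)
  rwa [cs_succ, cs_succ] at this

theorem cs_ne (u v : ℕ → Bool) : cs false u ≠ cs true v := by
  intro h
  have := congrFun h 0
  simp [cs_zero] at this

end Pool.Agent.Y588.PC
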