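import Pool.Agent.Y588.PC.Main

set_option autoImplicit false

namespace Pool.Agent.Y588.PC

open Pool.Agent.Helper227 Pool.Agent.H685R3 Pool.Agent.Y588.PD

theorem isOpen_pre (P : List Bool → Bool → Prop) (k n : ℕ) :
    IsOpen {p : (ℕ → Bool) × (ℕ → Bool) | P (pre p.1 k) (p.2 n)} := by
  have h1 : {p : (ℕ → Bool) × (ℕ → Bool) | P (pre p.1 k) (p.2 n)} =
      (fun p : (ℕ → Bool) × (ℕ → Bool) => ((fun i : Fin k => p.1 i : Fin k → Bool), p.2 n)) ⁻¹'
        {q | P (List.ofFn q.1) q.2} := by
    ext p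
    simp only [Set.mem_setOf_eq, Set.mem_preimage]
    have : pre p.1 k = List.ofFn fun i : Fin k => p.1 i :=
      List.ext_getElem (by simp) fun i h2 h3 => by rw [getElem_pre, List.getElem_ofFn]
    rw [this]
  rw [h1]
  exact (isOpen_discrete _).preimage (by fun_prop)

/-- The pairs `(x, y)` such that the functional `e` maps `x` to `y`. -/
def TT (E : ℕ → List Bool → ℕ → Bool → Prop) (e : ℕ) : Set ((ℕ → Bool) × (ℕ → Bool)) :=
  {p | ∀ n, ∃ k, E e (pre p.1 k) n (p.2 n)}

theorem measurableSet_TT (E : ℕ → List Bool → ℕ → Bool → Prop) (e : ℕ) :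
    MeasurableSet (TT E e) := by
  have h1 : TT E e = ⋂ n, ⋃ k, {p : (ℕ → Bool) × (ℕ → Bool) | E e (pre p.1 k) n (p.2 n)} := by
    ext p
    simp [TT]
  rw [h1]
  exact MeasurableSet.iInter fun n => MeasurableSet.iUnion fun k =>
    (isOpen_pre (fun L b => E e L n b) k n).measurableSet

open Classical in
/-- The function computed by the functional `e`, made total. -/
noncomputable def FF (E : ℕ → List Bool → ℕ → Bool → Prop) (e : ℕ) (x : ℕ → Bool) (n : ℕ) :
    Bool :=
  decide (∃ k, E e (pre x k) n true)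

theorem measurable_FF (E : ℕ → List Bool → ℕ → Bool → Prop) (e : ℕ) : Measurable (FF E e) := by
  classical
  refine measurable_pi_iff.2 fun n => measurable_to_bool ?_
  have h1 : (fun x => FF E e x n) ⁻¹' {true} =
      ⋃ k, (fun x : ℕ → Bool => (x, fun _ : ℕ => true)) ⁻¹'
        {p : (ℕ → Bool) × (ℕ → Bool) | E e (pre p.1 k) n (p.2 n)} := by
    ext x
    simp [FF]
  rw [h1]
  exact MeasurableSet.iUnion fun k =>
    ((isOpen_pre (fun L b => E e L n b) k n).preimage (by fun_prop)).measurableSet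

theorem FF_eq {E : ℕ → List Bool → ℕ → Bool → Prop} (hE : Fam E) {e : ℕ} {x y : ℕ → Bool}
    (h : (x, y) ∈ TT E e) : FF E e x = y := by
  classical
  funext n
  obtain ⟨k, hk⟩ := h n
  simp only at hk
  cases hy : y n
  · rw [hy] at hk
    refine decide_eq_false ?_
    rintro ⟨k', hk'⟩
    have := hE.single _ _ _ _ _ (hE.mono _ _ _ _ _ (pre_prefix x (le_max_left k k')) hk)
      (hE.mono _ _ _ _ _ (pre_prefix x (le_max_right k k')) hk')
    cases this
  · rw [hy] at hk
    exact decide_eq_true ⟨k, hk⟩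

theorem equivalence_sameDegree : Equivalence SameDegree :=
  ⟨fun x => ⟨TuringReducible.refl _, TuringReducible.refl _⟩, fun h => ⟨h.2, h.1⟩,
    fun h h' => ⟨h.1.trans h'.1, h'.2.trans h.2⟩⟩

theorem genericallyCountable_sameDegree : GenericallyCountable SameDegree := by
  classical
  refine ⟨equivalence_sameDegree, ?_⟩
  obtain ⟨E, hE, hE1⟩ := exists_fam
  refine ⟨fun m x => if (x, FF E m.unpair.1 x) ∈ TT E m.unpair.1 ∧
    (FF E m.unpair.1 x, x) ∈ TT E m.unpair.2 then FF E m.unpair.1 x else x, fun m => ?_,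
    Filter.Eventually.of_forall fun x y => ⟨fun h => ?_, ?_⟩⟩
  · refine Measurable.ite ?_ (measurable_FF E _) measurable_id
    exact ((measurable_id.prodMk (measurable_FF E _)) (measurableSet_TT E _)).inter
      (((measurable_FF E _).prodMk measurable_id) (measurableSet_TT E _))
  · obtain ⟨e', he'⟩ := (hE1 x y).1 h.1
    obtain ⟨e, he⟩ := (hE1 y x).1 h.2
    have h1 : FF E e x = y := FF_eq hE he
    refine ⟨Nat.pair e e', ?_⟩
    simp only [Nat.unpair_pair]
    rw [h1, if_pos ⟨he, he'⟩]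
  · rintro ⟨m, hm⟩
    simp only at hm
    split_ifs at hm with h1
    · rw [← hm]
      exact ⟨(hE1 _ _).2 ⟨_, h1.2⟩, (hE1 _ _).2 ⟨_, h1.1⟩⟩
    · rw [← hm]
      exact equivalence_sameDegree.refl x

theorem SameDegree.join {y y' : ℕ → Bool} (h : SameDegree y y') (b : ℕ → Bool) :
    SameDegree (join y b) (join y' b) :=
  ⟨tLe_join_of (TuringReducible.trans h.1 (tLe_join y' b)) (tLe_join_right y' b),
    tLe_join_of (TuringReducible.trans h.2 (tLe_join y b)) (tLe_join_right y b)⟩

theorem replaceable_sameDegree (κ : (ℕ → Bool) → ℕ → Bool) :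
    Replaceable SameDegree κ = {y | ∃ u, SameDegree y (κ u)} := by
  ext y
  refine exists_congr fun u => ⟨fun h => ⟨?_, ?_⟩, fun h b => SameDegree.join h b⟩
  · exact TuringReducible.trans (tLe_join y (κ u)) (TuringReducible.trans (h (κ u)).1
      (tLe_join_of (TuringReducible.refl _) (TuringReducible.refl _)))
  · exact TuringReducible.trans (tLe_join (κ u) y) (TuringReducible.trans (h y).2
      (tLe_join_of (TuringReducible.refl _) (TuringReducible.refl _)))

end Pool.Agent.Y588.PC
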